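import Pool.Agent.H.MP_47966f_an.C

set_option autoImplicit false
open Finset Filter Topology MeasureTheory
open scoped Classical ComplexConjugate

namespace Pool.Agent.H.MP_5269d5_an
open Pool.Agent.H.MP_47966f_an

variable {N : ℕ → ℕ}

theorem sq_sum (c : ℝ) (n : ℕ) : ∑ j ∈ range n, ((j : ℝ) - c) ^ 2 =
    n * (n - 1) * (2 * n - 1) / 6 - c * n * (n - 1) + n * c ^ 2 := by
  induction n with
  | zero => simp
  | succ n ih => rw [sum_range_succ, ih]; push_cast; ring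

theorem E_re (x : ℝ) : 1 - 20 * x ^ 2 ≤ (E x).re := by
  unfold E
  rw [Complex.exp_ofReal_mul_I_re]
  refine le_trans ?_ Real.one_sub_sq_div_two_le_cos
  have := Real.pi_lt_d2
  have := Real.pi_pos
  have h : Real.pi ^ 2 ≤ 10 := by nlinarith
  nlinarith [sq_nonneg x]

theorem ph_quad (hN : ∀ k, 2 ≤ N k) (k : ℕ) (ξ : ℝ) :
    1 - 5 / 3 * (ξ / P N k) ^ 2 ≤ ‖ph N k ξ‖ := by
  have hn : (0 : ℝ) < N k := by have := hN k; positivity
  have hp : (0 : ℝ) < P N k := by exact_mod_cast P_pos hN k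
  have hq : (P N (k + 1) : ℝ) = P N k * N k := by rw [P_succ]; push_cast; ring
  obtain ⟨u, hu⟩ : ∃ u, u = ξ / P N (k + 1) := ⟨_, rfl⟩
  have h1 : ξ / P N k = u * N k := by rw [hu, hq]; field_simp
  have h2 : ‖ph N k ξ‖ =
      (N k : ℝ)⁻¹ * ‖∑ j ∈ range (N k), E ((j - ((N k : ℝ) - 1) / 2) * u)‖ := by
    unfold ph
    rw [norm_mul, norm_inv, Complex.norm_natCast, ← hu]
    congr 1
    simp only [sub_mul, sub_eq_add_neg _ (_ * u), E_add]
    rw [← sum_mul, norm_mul, E_norm, mul_one]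
  have h3 : N k - 20 * u ^ 2 * (N k * (N k * N k) / 12) ≤
      ‖∑ j ∈ range (N k), E ((j - ((N k : ℝ) - 1) / 2) * u)‖ := by
    refine le_trans ?_ (Complex.re_le_norm _)
    rw [Complex.re_sum]
    refine le_trans ?_ (sum_le_sum fun j _ => E_re _)
    simp only [sum_sub_distrib, mul_pow, mul_comm _ (u ^ 2), ← mul_sum, sq_sum, sum_const,
      card_range, nsmul_eq_mul, mul_one]
    nlinarith [mul_nonneg (sq_nonneg u) hn.le]
  rw [h2, h1]
  refine le_trans (le_of_eq ?_) (mul_le_mul_of_nonneg_left h3 (by positivity))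
  field_simp; ring

theorem prodlow (f : ℕ → ℂ) (m : ℕ) {y : ℝ} (y0 : 0 ≤ y) (hy : y ≤ 3 / 4) (j : ℕ)
    (h : ∀ i < j, 1 - y * (1 / 4) ^ i ≤ ‖f (m + i)‖) :
    ‖∏ i ∈ range m, f i‖ * (1 - 4 / 3 * y * (1 - (1 / 4) ^ j)) ≤ ‖∏ i ∈ range (m + j), f i‖ := by
  induction j with
  | zero => simp
  | succ j ih =>
    rw [← add_assoc, prod_range_succ, norm_mul]
    have q0 : (0 : ℝ) < (1 / 4) ^ j := by positivity
    have q1 : (1 / 4 : ℝ) ^ j ≤ 1 := pow_le_one₀ (by norm_num) (by norm_num)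
    have h4 : 0 ≤ 1 - y * (1 / 4) ^ j := by nlinarith
    refine le_trans ?_ (mul_le_mul (ih fun i hi => h i (by omega)) (h j (by omega)) h4
      (norm_nonneg _))
    refine le_trans (mul_le_mul_of_nonneg_left ?_ (norm_nonneg _)) (mul_assoc _ _ _).ge
    rw [pow_succ]
    nlinarith [mul_nonneg (mul_nonneg y0 y0) (mul_nonneg q0.le (sub_nonneg.2 q1))]

theorem tl (hN : ∀ k, 2 ≤ N k) (M j : ℕ) {η η' : ℝ} (h : |η| ≤ 7 / 10 * P N (2 * M))
    (he : ∀ i, M ≤ i → i < M + j → ph N (2 * i + 0) η' = ph N (2 * i + 0) η) :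
    ‖Ph N 0 M η'‖ * (1 / 25) ≤ ‖Ph N 0 (M + j) η'‖ := by
  rcases j with _ | j
  · have := norm_nonneg (Ph N 0 M η')
    rw [add_zero]; linarith
  have hp : (0 : ℝ) < P N (2 * M) := by exact_mod_cast P_pos hN _
  have h1 := prodlow (fun i => ph N (2 * i + 0) η') (M + 1) (y := 9 / 16) (by norm_num)
    (by norm_num) j fun i hi => by
      rw [he _ (by omega) (by omega)]
      refine le_trans ?_ (ph_near hN _ _)
      have h2 := P_four hN (2 * M) (i + 1)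
      rw [show 2 * M + 2 * (i + 1) = 2 * (M + 1 + i) + 0 by ring] at h2
      have h3 : 63 / 20 * |η| / P N (2 * (M + 1 + i) + 0) ≤ 9 / 16 * (1 / 4) ^ i := by
        refine (div_le_div_of_nonneg_left (by positivity) (by positivity) h2).trans ?_
        rw [one_div_pow, mul_one_div, pow_succ, ← mul_assoc, mul_right_comm, ← div_div]
        refine div_le_div_of_nonneg_right ?_ (by positivity)
        rw [div_le_iff₀ (by positivity)]
        linarith
      linarith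
  have h4 := ph_quad hN (2 * M + 0) η
  have h5 : (η / P N (2 * M + 0)) ^ 2 ≤ (7 / 10) ^ 2 := by
    rw [← sq_abs, abs_div, Nat.abs_cast]
    exact pow_le_pow_left₀ (by positivity) (by rw [add_zero, div_le_iff₀ hp]; exact h) 2
  rw [← he M le_rfl (by omega)] at h4
  unfold Ph
  rw [show M + (j + 1) = M + 1 + j by ring]
  refine le_trans ?_ h1
  rw [prod_range_succ, norm_mul, mul_assoc]
  refine mul_le_mul_of_nonneg_left ?_ (norm_nonneg _)
  have q0 : (0 : ℝ) < (1 / 4) ^ j := by positivity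
  nlinarith [norm_nonneg (ph N (2 * M + 0) η')]

theorem tl_lim (hN : ∀ k, 2 ≤ N k) (M : ℕ) {η : ℝ} (h : |η| ≤ 7 / 10 * P N (2 * M)) {z : ℂ}
    (hz : Tendsto (fun n => Ph N 0 n η) atTop (𝓝 z)) : ‖Ph N 0 M η‖ * (1 / 25) ≤ ‖z‖ := by
  refine ge_of_tendsto hz.norm (eventually_atTop.2 ⟨M, fun n hn => ?_⟩)
  obtain ⟨j, rfl⟩ := Nat.exists_eq_add_of_le hn
  exact tl hN M j h fun _ _ _ => rfl

theorem lower0 (hN : ∀ k, 2 ≤ N k) {M : ℕ} {G : Finset ℤ}
    (hG : ∀ g ∈ G, ∀ m < M, ∀ x, (P N (2 * m) : ℤ) ∣ x - g →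
      ∃ t ∈ G, (P N (2 * m + 1) : ℤ) ∣ x - t) (h0 : G.Nonempty)
    (ξ : ℝ) : 1 ≤ ∑ g ∈ G, ‖Ph N 0 M (ξ + g)‖ ^ 2 := by
  have key : ∀ j m, m + j = M → ∀ g0 ∈ G, 1 ≤ ∑ g ∈ G with (P N (2 * m) : ℤ) ∣ g - g0,
      ‖∏ i ∈ Ico m M, ph N (2 * i + 0) (ξ + g)‖ ^ 2 := by
    intro j
    induction j with
    | zero =>
      rintro m rfl g0 hg
      simp only [add_zero, Ico_self, prod_empty, norm_one, one_pow, sum_const, nsmul_eq_mul,
        mul_one, Nat.one_le_cast]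
      exact card_pos.2 ⟨g0, by simp [hg]⟩
    | succ j ih =>
      intro m hm g0 hg
      have hlt : m < M := by omega
      have h1 : ∀ c : ℕ, ∃ t ∈ G, (P N (2 * m + 1) : ℤ) ∣ g0 + c * P N (2 * m) - t :=
        fun c => hG g0 hg _ hlt _ (by simp)
      choose t ht hd using h1
      let S : ℕ → Finset ℤ := fun c => G.filter fun g => (P N (2 * (m + 1)) : ℤ) ∣ g - t c
      have hS : ∀ c, ∀ g ∈ S c, (P N (2 * m + 1) : ℤ) ∣ g - (g0 + c * P N (2 * m)) := by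
        intro c g hg
        have := ((P_dvd (by omega : 2 * m + 1 ≤ 2 * (m + 1))).trans
          (mem_filter.1 hg).2).sub (hd c)
        rwa [sub_sub_sub_cancel_right] at this
      have hdis : ((range (N (2 * m)) : Finset ℕ) : Set ℕ).PairwiseDisjoint S := by
        intro c hc c' hc' hne
        refine disjoint_left.2 fun g h1 h2 => hne ?_
        have := (hS c g h1).sub (hS c' g h2)
        rw [show g - (g0 + c * P N (2 * m)) - (g - (g0 + c' * P N (2 * m))) =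
          P N (2 * m) * ((c' : ℤ) - c) by ring, P_succ (2 * m), Nat.cast_mul,
          mul_dvd_mul_iff_left (by exact_mod_cast (P_pos hN _).ne')] at this
        have a := mem_range.1 hc
        have b := mem_range.1 hc'
        have := Int.eq_zero_of_abs_lt_dvd this (by rw [abs_lt]; omega)
        omega
      have hsub : (range (N (2 * m))).biUnion S ⊆
          G.filter fun g => (P N (2 * m) : ℤ) ∣ g - g0 := by
        intro g hg
        obtain ⟨c, -, hc⟩ := mem_biUnion.1 hg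
        refine mem_filter.2 ⟨(mem_filter.1 hc).1, ?_⟩
        have := ((P_dvd (Nat.le_succ _)).trans (hS c g hc)).add
          (Dvd.intro_left (c : ℤ) rfl : (P N (2 * m) : ℤ) ∣ _)
        rwa [show g - (g0 + c * P N (2 * m)) + c * P N (2 * m) = g - g0 by ring] at this
      refine le_trans ?_ (sum_le_sum_of_subset_of_nonneg hsub fun _ _ _ => sq_nonneg _)
      rw [sum_biUnion hdis, ← pars hN (2 * m) (ξ + g0)]
      refine sum_le_sum fun c _ => ?_
      refine (le_mul_of_one_le_right (sq_nonneg _) (ih (m + 1) (by omega) (t c) (ht c))).trans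
        (le_of_eq ?_)
      rw [mul_sum]
      refine sum_congr rfl fun g hg => ?_
      rw [prod_eq_prod_Ico_succ_bot hlt, norm_mul, mul_pow, add_zero, ph_per hN _ ξ (hS c g hg)]
      push_cast
      rw [add_assoc]
  obtain ⟨g0, hg⟩ := h0
  refine (key M 0 (by simp) g0 hg).trans ?_
  unfold Ph
  rw [range_eq_Ico]
  exact sum_le_sum_of_subset_of_nonneg (filter_subset _ _) fun _ _ _ => sq_nonneg _

theorem complete0 {F : ℤ → ℝ} {Φ : ℕ → ℤ → ℝ} (hμ : ∀ g, Tendsto (fun n => Φ n g) atTop (𝓝 (F g)))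
    {B : Set ℤ} {c : ℝ} (hc : 0 < c)
    (hB : ∀ G : Finset ℤ, ↑G ⊆ B → ∀ j, ∃ G' : Finset ℤ, G ⊆ G' ∧ ↑G' ⊆ B ∧
      ∃ M, j ≤ M ∧ 1 ≤ ∑ g ∈ G', Φ M g ∧ ∀ g ∈ G', c * Φ M g ≤ F g) (s : ℝ)
    (hs : ∀ G : Finset ℤ, ↑G ⊆ B → ∑ g ∈ G, F g ≤ s) : 1 ≤ s := by
  by_contra! h1
  have step : ∀ t, (∀ G : Finset ℤ, ↑G ⊆ B → ∑ g ∈ G, F g ≤ t) →
      ∀ G : Finset ℤ, ↑G ⊆ B → ∑ g ∈ G, F g + c * (1 - ∑ g ∈ G, F g) ≤ t := by
    intro t ht G hG
    have l1 : Tendsto (fun n => ∑ g ∈ G, F g + c * (1 - ∑ g ∈ G, Φ n g)) atTop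
        (𝓝 (∑ g ∈ G, F g + c * (1 - ∑ g ∈ G, F g))) :=
      tendsto_const_nhds.add ((tendsto_const_nhds.sub
        (tendsto_finset_sum _ fun g _ => hμ _)).const_mul _)
    refine le_of_tendsto_of_frequently l1 (frequently_atTop.2 fun j => ?_)
    obtain ⟨G', a1, a2, M, a4, b1, a5⟩ := hB G hG j
    refine ⟨M, a4, le_trans ?_ (ht G' a2)⟩
    rw [← sum_sdiff a1] at b1 ⊢
    have b2 : ∑ g ∈ G' \ G, c * Φ M g ≤ ∑ g ∈ G' \ G, F g :=
      sum_le_sum fun g hg => a5 g (mem_sdiff.1 hg).1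
    rw [← mul_sum] at b2
    nlinarith
  have all : ∀ n : ℕ, ∀ G : Finset ℤ, ↑G ⊆ B → ∑ g ∈ G, F g ≤ s - n * (c * (1 - s)) := by
    intro n
    induction n with
    | zero => simpa using hs
    | succ n ih =>
      intro G hG
      have := step _ ih G hG
      have := hs G hG
      push_cast
      nlinarith
  have hp : 0 < c * (1 - s) := mul_pos hc (by linarith)
  obtain ⟨n, hn⟩ := exists_nat_gt (s / (c * (1 - s)))
  have := all n ∅ (by simp)
  rw [div_lt_iff₀ hp] at hn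
  rw [sum_empty] at this
  linarith

theorem spec (hN : ∀ k, 2 ≤ N k) (μ : Measure ℝ) [IsProbabilityMeasure μ]
    (hμ : ∀ ξ, Tendsto (fun n => Ph N 0 n ξ) atTop (𝓝 (Fo μ ξ))) {B : Set ℤ} (b1 : Orth N 0 B)
    {c : ℝ} (hc : 0 < c) (hB : ∀ ξ : ℝ, ∀ G : Finset ℤ, ↑G ⊆ B → ∀ j, ∃ G' : Finset ℤ,
      G ⊆ G' ∧ ↑G' ⊆ B ∧ ∃ M, j ≤ M ∧ 1 ≤ ∑ g ∈ G', ‖Ph N 0 M (ξ + g)‖ ^ 2 ∧
        ∀ g ∈ G', c * ‖Ph N 0 M (ξ + g)‖ ^ 2 ≤ ‖Fo μ (ξ + g)‖ ^ 2) :
    (Orthonormal ℂ fun l : ((↑) '' B : Set ℝ) => ev μ l) ∧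
      (Submodule.span ℂ (Set.range fun l : ((↑) '' B : Set ℝ) => ev μ l)).topologicalClosure
        = ⊤ := by
  have hon : Orthonormal ℂ fun b : B => ev μ ((b : ℤ) : ℝ) := by
    refine ⟨fun _ => ev_norm _ _, fun i j hij => ?_⟩
    simp only [ev_inner]
    exact (lim_zero hN (by norm_num) (hμ _)).2 ⟨j - i, by push_cast; ring,
      b1 _ j.2 _ i.2 fun h => hij (Subtype.ext h.symm)⟩
  refine ⟨⟨fun _ => ev_norm _ _, ?_⟩, ?_⟩
  · rintro ⟨_, i, hi, rfl⟩ ⟨_, j, hj, rfl⟩ hij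
    exact hon.2 (i := ⟨i, hi⟩) (j := ⟨j, hj⟩) (by rintro h; apply hij; simp_all)
  · rw [orth_span]
    intro f hf
    have hf' : ∀ b : B, inner ℂ (ev μ ((b : ℤ) : ℝ)) f = 0 := fun b => hf ⟨_, b, b.2, rfl⟩
    by_contra hf0
    apply hf0
    refine ev_total μ fun l => ?_
    have hp : 0 < ‖f‖ := norm_pos_iff.2 hf0
    let c : ℂ := inner ℂ f (ev μ l) / (‖f‖ ^ 2 : ℝ)
    have n1 : ‖ev μ l - c • f‖ ^ 2 = 1 - ‖inner ℂ f (ev μ l)‖ ^ 2 / ‖f‖ ^ 2 := by
      rw [@norm_sub_sq ℂ, ev_norm, inner_smul_right, norm_smul, ← inner_conj_symm (ev μ l) f]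
      simp only [c]
      rw [div_mul_eq_mul_div, Complex.mul_conj', norm_div, Complex.norm_real,
        Real.norm_of_nonneg (by positivity), ← Complex.ofReal_pow, ← Complex.ofReal_div,
        RCLike.re_to_complex, Complex.ofReal_re]
      field_simp
      ring
    have := complete0 (F := fun g => ‖Fo μ (-l + g)‖ ^ 2)
      (Φ := fun M g => ‖Ph N 0 M (-l + g)‖ ^ 2) (fun g => (hμ _).norm.pow 2) hc (hB (-l))
      (‖ev μ l - c • f‖ ^ 2) fun G hG => by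
      have := hon.sum_inner_products_le (ev μ l - c • f) (s := G.subtype (· ∈ B))
      refine le_trans (le_of_eq ?_) this
      rw [← sum_subtype_of_mem (fun g : ℤ => ‖Fo μ (-l + g)‖ ^ 2) (p := (· ∈ B))
        fun g hg => hG hg]
      refine sum_congr rfl fun g _ => ?_
      rw [inner_sub_right, inner_smul_right, hf', mul_zero, sub_zero, norm_inner_symm, ev_inner]
      congr 3; ring
    rw [n1] at this
    have h3 : ‖inner ℂ f (ev μ l)‖ ^ 2 / ‖f‖ ^ 2 ≤ 0 := by linarith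
    rw [div_le_iff₀ (by positivity), zero_mul] at h3
    rw [inner_eq_zero_symm, ← norm_eq_zero]
    exact pow_eq_zero_iff two_ne_zero |>.1 (le_antisymm h3 (by positivity))

end Pool.Agent.H.MP_5269d5_an
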