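import Pool.Agent.H.MP_5269d5_an.A

set_option autoImplicit false
open Finset Filter Topology MeasureTheory
open scoped Classical

namespace Pool.Agent.H.MP_5269d5_an
open Pool.Agent.H.MP_47966f_an

def NN (q w : ℕ) (k : ℕ) : ℕ := if k % 2 = 0 then q else w

variable {q w : ℕ} {R : Set ℕ} {L : ℕ}

theorem NN_ge (hq : 2 ≤ q) (hw : 2 ≤ w) (k : ℕ) : 2 ≤ NN q w k := by
  unfold NN; split_ifs <;> assumption

theorem P_ev (i : ℕ) : P (NN q w) (2 * i) = (q * w) ^ i := by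
  induction i with
  | zero => simp [P]
  | succ i ih =>
    rw [show 2 * (i + 1) = 2 * i + 1 + 1 by ring, P_succ, P_succ, ih, pow_succ]
    simp [NN, Nat.add_mod, mul_assoc]

theorem P_od (i : ℕ) : P (NN q w) (2 * i + 1) = (q * w) ^ i * q := by
  rw [P_succ, P_ev]; simp [NN]

def dig (q i n : ℕ) : ℕ := n / q ^ i % q

noncomputable def sh (q : ℕ) (R : Set ℕ) (L i n : ℕ) : ℕ :=
  if ∃ m ∈ R, i = L + 2 * m ∧ n % q ^ (i + 1) = m then q else 0

noncomputable def tK (q w : ℕ) (R : Set ℕ) (L K n : ℕ) : ℕ :=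
  ∑ i ∈ range K, (dig q i n + sh q R L i n) * (q * w) ^ i

noncomputable def tau (q w : ℕ) (R : Set ℕ) (L n : ℕ) : ℕ := tK q w R L (L + 2 * n + 1) n

theorem lt_pw (hq : 2 ≤ q) {n i : ℕ} (h : n ≤ i) : n < q ^ i :=
  (Nat.lt_pow_self hq).trans_le (Nat.pow_le_pow_right (by omega) h)

theorem dig_lt (hq : 2 ≤ q) (i n : ℕ) : dig q i n < q := Nat.mod_lt _ (by omega)

theorem dig_zero {i n : ℕ} (h : n < q ^ i) : dig q i n = 0 := by
  simp [dig, Nat.div_eq_of_lt h]

theorem dig_mod (i n : ℕ) : dig q i n = n % q ^ (i + 1) / q ^ i := by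
  rw [pow_succ, Nat.mod_mul_right_div_self]; rfl

theorem mod_down {i j n m : ℕ} (h : n % q ^ i = m % q ^ i) (hj : j ≤ i) :
    n % q ^ j = m % q ^ j := by
  rw [← Nat.mod_mod_of_dvd n (pow_dvd_pow q hj), h, Nat.mod_mod_of_dvd m (pow_dvd_pow q hj)]

theorem sh_hi (hq : 2 ≤ q) {i n : ℕ} (h : n < q ^ i) :
    sh q R L i n = if n ∈ R ∧ i = L + 2 * n then q else 0 := by
  unfold sh
  rw [Nat.mod_eq_of_lt (h.trans_le (Nat.pow_le_pow_right (by omega) (Nat.le_succ i)))]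
  congr 1
  exact propext ⟨by rintro ⟨m, h1, h2, rfl⟩; exact ⟨h1, h2⟩, fun h => ⟨n, h.1, h.2, rfl⟩⟩

theorem tK_add (hq : 2 ≤ q) {M n : ℕ} (h : n < q ^ M) (j : ℕ) : tK q w R L (M + j) n =
    tK q w R L M n + if n ∈ R ∧ M ≤ L + 2 * n ∧ L + 2 * n < M + j
      then q * (q * w) ^ (L + 2 * n) else 0 := by
  induction j with
  | zero => rw [if_neg (by omega)]; rfl
  | succ j ih =>
    have h1 : n < q ^ (M + j) := h.trans_le (Nat.pow_le_pow_right (by omega) (by omega))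
    unfold tK at ih ⊢
    rw [← add_assoc, sum_range_succ, ih, dig_zero h1, sh_hi hq h1, zero_add, add_assoc]
    congr 1
    by_cases hR : n ∈ R
    · by_cases h2 : M + j = L + 2 * n
      · rw [if_neg (by omega), if_pos ⟨hR, h2⟩, if_pos ⟨hR, by omega, by omega⟩, h2, zero_add]
      · rw [if_neg (c := n ∈ R ∧ M + j = _) (by tauto), zero_mul, add_zero]
        congr 1
        exact propext ⟨fun h => ⟨hR, by omega, by omega⟩, fun h => ⟨hR, by omega, by omega⟩⟩
    · simp [hR]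

theorem tau_eq (hq : 2 ≤ q) {K n : ℕ} (h : L + 2 * n + 1 ≤ K) :
    tau q w R L n = tK q w R L K n := by
  obtain ⟨j, rfl⟩ := Nat.exists_eq_add_of_le h
  rw [tK_add hq (lt_pw hq (by omega)), if_neg (by omega)]; rfl

theorem tau_split (hq : 2 ≤ q) {M n : ℕ} (h : n < q ^ M) : tau q w R L n =
    tK q w R L M n + if n ∈ R ∧ M ≤ L + 2 * n then q * (q * w) ^ (L + 2 * n) else 0 := by
  rw [tau_eq hq (K := M + (L + 2 * n + 1)) (by omega), tK_add hq h]
  congr 2
  exact propext ⟨fun h => ⟨h.1, h.2.1⟩, fun h => ⟨h.1, h.2, by omega⟩⟩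

theorem cong (hq : 2 ≤ q) {i n m : ℕ} (h : n % q ^ i = m % q ^ i) :
    (((q * w) ^ i * q : ℕ) : ℤ) ∣ (tau q w R L n : ℤ) - tau q w R L m -
      ((dig q i n : ℤ) - dig q i m) * (q * w) ^ i := by
  obtain ⟨K, h1, h2, h3⟩ : ∃ K, L + 2 * n + 1 ≤ K ∧ L + 2 * m + 1 ≤ K ∧ i < K :=
    ⟨L + 2 * n + 2 * m + i + 1, by omega, by omega, by omega⟩
  rw [tau_eq hq h1, tau_eq hq h2]
  unfold tK
  rw [Nat.cast_sum, Nat.cast_sum, ← sum_sub_distrib, ← add_sum_erase _ _ (mem_range.2 h3),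
    add_sub_right_comm]
  refine dvd_add ?_ (dvd_sum fun j hj => ?_)
  · have a : ∀ n, ∃ c : ℤ, (sh q R L i n : ℤ) = q * c := fun n => by
      unfold sh; split_ifs
      · exact ⟨1, by simp⟩
      · exact ⟨0, by simp⟩
    obtain ⟨c, hc⟩ := a n
    obtain ⟨c', hc'⟩ := a m
    exact ⟨c - c', by push_cast; rw [hc, hc']; ring⟩
  · rcases lt_or_gt_of_ne (ne_of_mem_erase hj) with h4 | h4
    · have := mod_down h (Nat.succ_le_of_lt h4)
      rw [dig_mod, dig_mod j m]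
      unfold sh
      rw [this, sub_self]
      exact dvd_zero _
    · obtain ⟨k, rfl⟩ := Nat.exists_eq_add_of_lt h4
      exact ⟨w * (q * w) ^ k * (((dig q (i + k + 1) n + sh q R L (i + k + 1) n : ℕ) : ℤ) -
        (dig q (i + k + 1) m + sh q R L (i + k + 1) m : ℕ)), by push_cast; ring⟩

theorem tau_od (hq : 2 ≤ q) (hw : 2 ≤ w) {n m : ℕ} (h : n ≠ m) :
    Od (NN q w) 0 ((tau q w R L n : ℤ) - tau q w R L m) := by
  have h0 : ∀ i, (∀ j < i, dig q j n = dig q j m) → n % q ^ i = m % q ^ i := by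
    intro i
    induction i with
    | zero => simp [Nat.mod_one]
    | succ i ih =>
      intro hi
      rw [Nat.mod_pow_succ, Nat.mod_pow_succ, ih fun j hj => hi j (by omega)]
      congr 2
      exact hi i (by omega)
  have h1 : ∃ i, dig q i n ≠ dig q i m := by
    by_contra! hc
    have := h0 (n + m) fun j _ => hc j
    rw [Nat.mod_eq_of_lt (lt_pw hq (by omega)), Nat.mod_eq_of_lt (lt_pw hq (by omega))] at this
    exact h this
  have h2 := Nat.find_spec h1
  have h3 := cong (w := w) (R := R) (L := L) hq (h0 (Nat.find h1) fun j hj => by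
    simpa using Nat.find_min h1 hj)
  generalize Nat.find h1 = i at h2 h3
  refine ⟨2 * i, by omega, ?_, fun h4 => ?_⟩
  · rw [P_ev]
    have := ((Int.natCast_dvd_natCast.2 (Dvd.intro _ rfl)).trans h3).add
      (Dvd.intro_left ((dig q i n : ℤ) - dig q i m) rfl : ((((q * w) ^ i : ℕ) : ℤ)) ∣ _)
    push_cast at this ⊢
    rwa [sub_add_cancel] at this
  · rw [P_od] at h4
    have h5 := h4.sub h3
    rw [sub_sub_cancel, mul_comm (_ - _)] at h5
    push_cast at h5
    rw [mul_dvd_mul_iff_left (by positivity)] at h5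
    have a := dig_lt hq i n
    have b := dig_lt hq i m
    have := Int.eq_zero_of_abs_lt_dvd h5 (by rw [abs_lt]; omega)
    omega

theorem tau_inj (hq : 2 ≤ q) (hw : 2 ≤ w) : Function.Injective (tau q w R L) := by
  intro n m h
  by_contra hc
  obtain ⟨k, -, h1⟩ := tau_od (R := R) (L := L) hq hw hc
  exact h1.2 (by simp [h])

theorem tau_full (hq : 2 ≤ q) {M m : ℕ} (hm : m < M) (n : ℕ) (x : ℤ)
    (h : (P (NN q w) (2 * m) : ℤ) ∣ x - tau q w R L n) :
    ∃ n' < q ^ M, (P (NN q w) (2 * m + 1) : ℤ) ∣ x - tau q w R L n' := by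
  rw [P_ev] at h
  rw [P_od]
  obtain ⟨u, hu⟩ := h
  have hq0 : (0 : ℤ) < q := by positivity
  obtain ⟨c, hc⟩ := Int.eq_ofNat_of_zero_le (Int.emod_nonneg (dig q m n + u) hq0.ne')
  have hc1 : c < q := by have := Int.emod_lt_of_pos (dig q m n + u) hq0; omega
  have hp : 0 < q ^ m := by positivity
  have h1 := Nat.mod_lt n hp
  refine ⟨n % q ^ m + q ^ m * c, ?_, ?_⟩
  · refine lt_of_lt_of_le ?_ (Nat.pow_le_pow_right (by omega) (Nat.succ_le_of_lt hm))
    rw [pow_succ]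
    nlinarith [Nat.mul_le_mul_left (q ^ m) (Nat.succ_le_of_lt hc1)]
  · have h2 := cong (w := w) (R := R) (L := L) hq (i := m) (n := n) (m := n % q ^ m + q ^ m * c)
      (by simp)
    have h3 : dig q m (n % q ^ m + q ^ m * c) = c := by
      unfold dig
      rw [Nat.add_mul_div_left _ _ hp, Nat.div_eq_of_lt h1, zero_add, Nat.mod_eq_of_lt hc1]
    rw [h3] at h2
    have h4 := Int.emod_add_mul_ediv (dig q m n + u) q
    rw [hc] at h4
    have h5 : (((q * w) ^ m * q : ℕ) : ℤ) ∣ ((q * w) ^ m : ℕ) * (dig q m n + u - c : ℤ) :=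
      ⟨(dig q m n + u) / q, by push_cast; rw [mul_assoc]; congr 1; linarith⟩
    refine (h2.add h5).trans (dvd_of_eq ?_)
    rw [Nat.cast_pow, Nat.cast_mul] at hu ⊢
    linarith

theorem sh_le (i n : ℕ) : sh q R L i n ≤ q := by unfold sh; split_ifs <;> omega

theorem tK_lt (hq : 2 ≤ q) (hw : 2 ≤ w) (K n : ℕ) : tK q w R L K n < (q * w) ^ K := by
  induction K with
  | zero => simp [tK]
  | succ K ih =>
    unfold tK at ih ⊢
    rw [sum_range_succ, pow_succ]
    have a := dig_lt hq K n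
    have b := sh_le (q := q) (R := R) (L := L) K n
    have c : dig q K n + sh q R L K n + 1 ≤ q * w := by nlinarith
    nlinarith [Nat.mul_le_mul_left ((q * w) ^ K) c]

theorem tK_half (hq : 2 ≤ q) (hw : 2 ≤ w) (j n : ℕ) :
    2 * tK q w R L (L + 2 * j + 1 + 1) n ≤ (q * w) ^ (L + 2 * j + 1 + 1) := by
  have ih := tK_lt (R := R) (L := L) hq hw (L + 2 * j + 1) n
  unfold tK at ih ⊢
  rw [sum_range_succ, pow_succ _ (L + 2 * j + 1)]
  have a := dig_lt hq (L + 2 * j + 1) n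
  have b : sh q R L (L + 2 * j + 1) n = 0 := if_neg (by rintro ⟨m, -, h, -⟩; omega)
  have c : 2 * (dig q (L + 2 * j + 1) n + 1) ≤ q * w := by nlinarith
  rw [b]
  nlinarith [Nat.mul_le_mul_left ((q * w) ^ (L + 2 * j + 1)) c]

theorem tau_spec (hq : 2 ≤ q) (hw : 2 ≤ w) (μ : Measure ℝ) [IsProbabilityMeasure μ]
    (hμ : ∀ ξ, Tendsto (fun n => Ph (NN q w) 0 n ξ) atTop (𝓝 (Fo μ ξ))) (R : Set ℕ) (L : ℕ) :
    (Orthonormal ℂ fun l : ((↑) '' (Set.range fun n => (tau q w R L n : ℤ)) : Set ℝ) => ev μ l) ∧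
      (Submodule.span ℂ (Set.range fun l : ((↑) '' (Set.range fun n => (tau q w R L n : ℤ)) :
        Set ℝ) => ev μ l)).topologicalClosure = ⊤ := by
  have hN := NN_ge hq hw
  refine spec hN μ hμ ?_ (c := (1 / 625) ^ 2) (by positivity) fun ξ G hG j => ?_
  · rintro _ ⟨n, rfl⟩ _ ⟨m, rfl⟩ h
    exact tau_od hq hw (by rintro rfl; exact h rfl)
  have : ∀ g ∈ G, ∃ n, (tau q w R L n : ℤ) = g := fun g hg => hG hg
  choose! κ hκ using this
  obtain ⟨j0, hj0⟩ := exists_nat_ge (20 * |ξ|)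
  obtain ⟨J, hJ⟩ : ∃ J, J = j + j0 + G.sup κ := ⟨_, rfl⟩
  obtain ⟨M, hM⟩ : ∃ M, M = L + 2 * J + 1 + 1 := ⟨_, rfl⟩
  refine ⟨(range (q ^ M)).image fun n => (tau q w R L n : ℤ), fun g hg => ?_, fun g hg => ?_,
    M, by omega, lower0 hN ?_ ⟨_, mem_image_of_mem _ (mem_range.2 (by positivity))⟩ ξ, ?_⟩
  · have : κ g ≤ G.sup κ := le_sup hg
    exact mem_image.2 ⟨κ g, mem_range.2 (lt_pw hq (by omega)), hκ g hg⟩
  · obtain ⟨n, -, rfl⟩ := mem_image.1 hg
    exact ⟨n, rfl⟩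
  · intro g hg m hm x hx
    obtain ⟨n, -, rfl⟩ := mem_image.1 hg
    obtain ⟨n', h1, h2⟩ := tau_full hq hm n x hx
    exact ⟨_, mem_image_of_mem _ (mem_range.2 h1), h2⟩
  · intro g hg
    obtain ⟨n, hn, rfl⟩ := mem_image.1 hg
    rw [← mul_pow]
    refine pow_le_pow_left₀ (by positivity) ?_ 2
    have a1 : (2 : ℝ) * tK q w R L M n ≤ P (NN q w) (2 * M) := by
      rw [P_ev, hM]; exact_mod_cast tK_half hq hw J n
    have a2 : ((2 * M : ℕ) : ℝ) < P (NN q w) (2 * M) := by exact_mod_cast P_gt hN _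
    have a3 : (j0 : ℝ) ≤ (2 * M : ℕ) := by exact_mod_cast (by omega : j0 ≤ 2 * M)
    have a4 : |ξ + (tK q w R L M n : ℤ)| ≤ 11 / 20 * P (NN q w) (2 * M) := by
      refine (abs_add_le _ _).trans ?_
      rw [Int.cast_natCast, Nat.abs_cast]
      linarith
    have a5 : (0 : ℝ) < P (NN q w) (2 * M) := by exact_mod_cast P_pos hN _
    have a6 := tau_split (w := w) (R := R) (L := L) hq (mem_range.1 hn)
    have a7 := norm_nonneg (Ph (NN q w) 0 M (ξ + (tau q w R L n : ℤ)))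
    split_ifs at a6 with h
    · obtain ⟨k, hk⟩ := Nat.exists_eq_add_of_le h.2
      rw [hk] at a6
      have b1 := tl hN M (k + 1) (η := ξ + (tK q w R L M n : ℤ)) (η' := ξ + (tau q w R L n : ℤ))
        (by linarith) fun i h1 h2 => ph_per hN _ ξ (by
          obtain ⟨t, ht⟩ := Nat.exists_eq_add_of_le (by omega : i ≤ M + k)
          rw [add_zero, P_od, a6, ht]
          exact ⟨(q * w) ^ t, by push_cast; ring⟩)
      have b2 := tl_lim hN (M + (k + 1)) (η := ξ + (tau q w R L n : ℤ)) (by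
        have c1 : (P (NN q w) (2 * M) : ℝ) ≤ (q * w) ^ (M + k) := by
          rw [P_ev]
          exact_mod_cast Nat.pow_le_pow_right (by positivity) (by omega)
        have c2 : (2 : ℝ) ≤ q := by exact_mod_cast hq
        have c3 : (2 : ℝ) ≤ w := by exact_mod_cast hw
        have c4 : (0 : ℝ) < (q * w) ^ (M + k) := by positivity
        rw [a6, P_ev, ← add_assoc M, pow_succ]
        push_cast at a4 ⊢
        rw [← add_assoc]
        refine (abs_add_le _ _).trans ?_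
        rw [abs_of_nonneg (a := (q : ℝ) * _) (by positivity)]
        have c5 : (11 / 20 + q : ℝ) ≤ 7 / 10 * (q * w) := by nlinarith
        nlinarith [mul_le_mul_of_nonneg_left c5 c4.le]) (hμ _)
      linarith
    · rw [add_zero] at a6
      have b2 := tl_lim hN M (η := ξ + (tau q w R L n : ℤ)) (by rw [a6]; linarith) (hμ _)
      linarith

end Pool.Agent.H.MP_5269d5_an
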