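import Pool.Agent.H.MP_5269d5_an.B

set_option autoImplicit false
open Finset Filter Topology MeasureTheory
open scoped Classical ENNReal

namespace Pool.Agent.H.MP_5269d5_an
open Pool.Agent.H.MP_47966f_an

def Up (s : ℝ) (C : ℝ → ℝ → ℝ) (e : ℝ) : Prop :=
  ∀ ε > 0, ∀ᶠ h in atTop, ∀ x, C x h ≤ (e + ε) * h ^ s

def Lo (s : ℝ) (C : ℝ → ℝ → ℝ) (e : ℝ) : Prop :=
  ∀ ε > 0, ∃ᶠ h in atTop, ∃ x, (e - ε) * h ^ s ≤ C x h

variable {s : ℝ} {C C' : ℝ → ℝ → ℝ}

theorem lo_le_up {e e' : ℝ} (h : Lo s C e) (h' : Up s C e') : e ≤ e' := by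
  by_contra! hc
  obtain ⟨t, ⟨⟨x, h1⟩, h2⟩, h3⟩ := (((h ((e - e') / 3) (by linarith)).and_eventually
    (h' ((e - e') / 3) (by linarith))).and_eventually (eventually_gt_atTop 0)).exists
  have := Real.rpow_pos_of_pos h3 s
  nlinarith [h2 x]

theorem ex_D {e e' : ℝ} (h : Lo s C e) (h' : Up s C e') : ∃ D, e ≤ D ∧ Up s C D ∧ Lo s C D := by
  have hb : BddBelow {D | Up s C D} := ⟨e, fun D hD => lo_le_up h hD⟩
  refine ⟨sInf {D | Up s C D}, le_csInf ⟨e', h'⟩ fun D hD => lo_le_up h hD, fun ε hε => ?_,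
    fun ε hε => ?_⟩
  · obtain ⟨D, h1, h2⟩ := exists_lt_of_csInf_lt (s := {D | Up s C D}) ⟨e', h'⟩
      (lt_add_of_pos_right _ (half_pos hε))
    filter_upwards [h1 _ (half_pos hε), eventually_gt_atTop 0] with t h3 h4 x
    exact (h3 x).trans (mul_le_mul_of_nonneg_right (by linarith) (by positivity))
  · by_contra hc
    have : Up s C (sInf {D | Up s C D} - ε) := fun η hη => by
      filter_upwards [not_frequently.1 hc, eventually_gt_atTop 0] with t h3 h4 x
      push Not at h3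
      exact (h3 x).le.trans (mul_le_mul_of_nonneg_right (by linarith) (by positivity))
    have := csInf_le hb this
    linarith

theorem transfer {θ e : ℝ} (h0 : 0 ≤ θ) (h1 : θ ≤ 1)
    (h : ∀ ε > 0, ∀ᶠ t in atTop, ∀ x, |C' x t - θ * C x t| ≤ ε * t ^ s) :
    (Up s C e → Up s C' (θ * e)) ∧ (Lo s C e → Lo s C' (θ * e)) := by
  refine ⟨fun hU ε hε => ?_, fun hL ε hε => ?_⟩
  · filter_upwards [h _ (half_pos hε), hU _ (half_pos hε), eventually_gt_atTop 0]
      with t h2 h3 h4 x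
    have := Real.rpow_pos_of_pos h4 s
    have a := (abs_le.1 (h2 x)).2
    have b := mul_le_mul_of_nonneg_left (h3 x) h0
    nlinarith [mul_nonneg (mul_nonneg (sub_nonneg.2 h1) hε.le) this.le]
  · refine (((hL _ (half_pos hε)).and_eventually (h _ (half_pos hε))).and_eventually
      (eventually_gt_atTop 0)).mono ?_
    rintro t ⟨⟨⟨x, h3⟩, h2⟩, h4⟩
    have := Real.rpow_pos_of_pos h4 s
    have a := (abs_le.1 (h2 x)).1
    have b := mul_le_mul_of_nonneg_left h3 h0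
    exact ⟨x, by nlinarith [mul_nonneg (mul_nonneg (sub_nonneg.2 h1) hε.le) this.le]⟩

theorem small (hs : 0 < s) (A B : ℝ) {ε : ℝ} (hε : 0 < ε) :
    ∀ᶠ t in atTop, A + B * Real.log t ≤ ε * t ^ s := by
  have h1 := ((isLittleO_log_rpow_atTop hs).const_mul_left B).def (half_pos hε)
  have h2 := (tendsto_rpow_atTop hs).eventually_ge_atTop (A / (ε / 2))
  filter_upwards [h1, h2, eventually_gt_atTop 0] with t h1 h2 h3
  rw [Real.norm_eq_abs, Real.norm_of_nonneg (by positivity)] at h1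
  rw [div_le_iff₀ (half_pos hε)] at h2
  linarith [le_abs_self (B * Real.log t)]

theorem lsup {Λ : Set ℝ} (hf : ∀ x h, (Λ ∩ Set.Ioo (x - h) (x + h)).Finite) {d : ℝ} (hd : 0 ≤ d)
    (hU : Up s (fun x h => (Λ ∩ Set.Ioo (x - h) (x + h)).ncard) d)
    (hL : Lo s (fun x h => (Λ ∩ Set.Ioo (x - h) (x + h)).ncard) d) :
    limsup (fun h : ℝ => ⨆ x : ℝ, ((Λ ∩ Set.Ioo (x - h) (x + h)).encard : ℝ≥0∞) /
      ENNReal.ofReal (h ^ s)) atTop = ENNReal.ofReal d := by
  have e : ∀ x h : ℝ, 0 < h → ((Λ ∩ Set.Ioo (x - h) (x + h)).encard : ℝ≥0∞) /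
      ENNReal.ofReal (h ^ s) = ENNReal.ofReal ((Λ ∩ Set.Ioo (x - h) (x + h)).ncard / h ^ s) := by
    intro x h hh
    rw [← (hf x h).cast_ncard_eq, ENNReal.ofReal_div_of_pos (by positivity),
      ENNReal.ofReal_natCast]
    rfl
  refine le_antisymm (ENNReal.le_of_forall_pos_le_add fun ε hε _ => ?_)
    (ENNReal.le_of_forall_pos_le_add fun ε hε _ => ?_)
  · refine limsup_le_of_le (by isBoundedDefault) ?_
    filter_upwards [hU ε hε, eventually_gt_atTop 0] with h h1 h2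
    refine iSup_le fun x => ?_
    rw [e x h h2, ← ENNReal.ofReal_coe_nnreal, ← ENNReal.ofReal_add hd ε.coe_nonneg]
    exact ENNReal.ofReal_le_ofReal (by rw [div_le_iff₀ (by positivity)]; exact h1 x)
  · have : ENNReal.ofReal (d - ε) ≤ limsup (fun h : ℝ => ⨆ x : ℝ,
        ((Λ ∩ Set.Ioo (x - h) (x + h)).encard : ℝ≥0∞) / ENNReal.ofReal (h ^ s)) atTop := by
      refine le_limsup_of_frequently_le (((hL ε hε).and_eventually
        (eventually_gt_atTop 0)).mono ?_)
      rintro h ⟨⟨x, h1⟩, h2⟩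
      refine le_iSup_of_le x ?_
      rw [e x h h2]
      exact ENNReal.ofReal_le_ofReal (by rw [le_div_iff₀ (by positivity)]; exact h1)
    rw [ENNReal.ofReal_sub _ ε.coe_nonneg, ENNReal.ofReal_coe_nnreal] at this
    exact tsub_le_iff_right.1 this

noncomputable def cnt (S : Set ℕ) (n : ℕ) : ℝ := ∑ i ∈ range n, if i ∈ S then 1 else 0

theorem cnt_Ico (S : Set ℕ) {a b : ℕ} (h : a ≤ b) :
    ((S ∩ Set.Ico a b).ncard : ℝ) = cnt S b - cnt S a := by
  unfold cnt
  rw [← sum_Ico_eq_sub _ h, ← sum_filter, sum_const, nsmul_eq_mul, mul_one, ← Set.ncard_coe_finset]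
  congr 2
  ext n
  simp [and_comm]

theorem thin (U : Set ℕ) {θ : ℝ} (h0 : 0 ≤ θ) (h1 : θ ≤ 1) :
    ∃ K ⊆ U, ∀ n, cnt K n = ⌊θ * cnt U n⌋ := by
  refine ⟨{n | n ∈ U ∧ ⌊θ * cnt U n⌋ < ⌊θ * (cnt U n + 1)⌋}, fun n h => h.1, fun n => ?_⟩
  induction n with
  | zero => simp [cnt]
  | succ n ih =>
    rw [cnt, sum_range_succ, ← cnt, ih, cnt.eq_1 U (n + 1), sum_range_succ, ← cnt]
    by_cases hn : n ∈ U
    · have a : ⌊θ * cnt U n⌋ ≤ ⌊θ * (cnt U n + 1)⌋ := Int.floor_mono (by linarith)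
      have b : ⌊θ * (cnt U n + 1)⌋ ≤ ⌊θ * cnt U n⌋ + 1 := by
        rw [← Int.floor_add_one]; exact Int.floor_mono (by linarith)
      simp only [Set.mem_setOf_eq, hn, true_and, if_true]
      split_ifs with h
      · rw [show ⌊θ * (cnt U n + 1)⌋ = ⌊θ * cnt U n⌋ + 1 by omega]; simp
      · rw [show ⌊θ * (cnt U n + 1)⌋ = ⌊θ * cnt U n⌋ by omega]; simp
    · simp [hn]

theorem slope {α q Q x : ℝ} (hα : 1 ≤ α) (hq : 1 < q) (hQ : q ≤ Q) (h1 : 1 ≤ x) (h2 : x ≤ Q) :
    (q ^ α - 1) / (q - 1) * (Q - x) ≤ Q ^ α - x ^ α := by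
  rcases h2.eq_or_lt with rfl | h2
  · simp
  have c := convexOn_rpow hα
  have a := c.secant_mono (a := 1) (x := q) (y := Q) (by simp) (by simp; linarith)
    (by simp; linarith) hq.ne' (by linarith) hQ
  have b := c.secant_mono (a := Q) (x := 1) (y := x) (by simp; linarith) (by simp)
    (by simp; linarith) (by linarith) h2.ne h1
  simp only [Real.one_rpow] at a b
  rw [← neg_div_neg_eq, neg_sub, neg_sub, ← neg_div_neg_eq (x ^ α - _), neg_sub, neg_sub] at b
  rw [← le_div_iff₀ (by linarith)]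
  exact a.trans b

variable {q w : ℕ}

def lK (q w K n : ℕ) : ℕ := ∑ i ∈ range K, dig q i n * (q * w) ^ i

theorem lK_succ (K n : ℕ) : lK q w (K + 1) n = n % q + q * w * lK q w K (n / q) := by
  unfold lK
  rw [sum_range_succ', mul_sum, add_comm]
  congr 1
  · simp [dig]
  · refine sum_congr rfl fun i _ => ?_
    unfold dig
    rw [Nat.div_div_eq_div_mul, ← pow_succ', pow_succ (q * w)]; ring

noncomputable def lam (q w n : ℕ) : ℕ := tau q w ∅ 0 n

theorem lam_eq (hq : 2 ≤ q) {K n : ℕ} (h : n < q ^ K) : lam q w n = lK q w K n := by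
  rw [lam, tau_split hq h]
  simp [tK, lK, sh]

noncomputable def del (q w : ℕ) : ℝ := ((q : ℝ) - 1) / (q * w - 1)

noncomputable def es (q w : ℕ) : ℝ := Real.log q / Real.log (q * w)

section
variable (hq : 2 ≤ q) (hw : 2 ≤ w)
include hq hw

theorem bas : (2 : ℝ) ≤ q ∧ (q : ℝ) * 2 ≤ q * w :=
  ⟨by exact_mod_cast hq, by exact_mod_cast Nat.mul_le_mul_left q hw⟩

theorem del_pos : 0 < del q w := by
  obtain ⟨a, b⟩ := bas hq hw
  exact div_pos (by linarith) (by linarith)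

theorem del_mul : del q w * (q * w - 1) = q - 1 := by
  obtain ⟨a, b⟩ := bas hq hw
  exact div_mul_cancel₀ _ (by linarith)

theorem es_pos : 0 < es q w := by
  obtain ⟨a, b⟩ := bas hq hw
  exact div_pos (Real.log_pos (by linarith)) (Real.log_pos (by linarith))

theorem es_le : es q w ≤ 1 := by
  obtain ⟨a, b⟩ := bas hq hw
  exact (div_le_one (Real.log_pos (by linarith))).2 (Real.log_le_log (by linarith) (by linarith))

theorem p_es : ((q : ℝ) * w) ^ es q w = q := by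
  obtain ⟨a, b⟩ := bas hq hw
  rw [Real.rpow_def_of_pos (by linarith), es, mul_div_cancel₀ _ (Real.log_pos (by linarith)).ne',
    Real.exp_log (by linarith)]

theorem q_es : (q : ℝ) ^ (es q w)⁻¹ = q * w := by
  nth_rw 1 [← p_es hq hw]
  exact Real.rpow_rpow_inv (by positivity) (es_pos hq hw).ne'

theorem cvx (K : ℕ) : ∀ a b : ℕ, a ≤ b → b < q ^ K →
    del q w * ((b : ℝ) - a + 1) ^ (es q w)⁻¹ ≤ lK q w K b - lK q w K a + del q w := by
  obtain ⟨b1, b2⟩ := bas hq hw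
  induction K with
  | zero =>
    intro a b h1 h2
    obtain rfl : b = 0 := by simpa using h2
    obtain rfl : a = 0 := by omega
    simp
  | succ K ih =>
    intro a b h1 h2
    have h3 : a / q ≤ b / q := Nat.div_le_div_right h1
    have h4 := ih (a / q) (b / q) h3 (Nat.div_lt_of_lt_mul (by rwa [pow_succ'] at h2))
    have h5 : ((a / q : ℕ) : ℝ) ≤ (b / q : ℕ) := by exact_mod_cast h3
    have ea : (q : ℝ) * (a / q : ℕ) + (a % q : ℕ) = a := by exact_mod_cast Nat.div_add_mod a q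
    have eb : (q : ℝ) * (b / q : ℕ) + (b % q : ℕ) = b := by exact_mod_cast Nat.div_add_mod b q
    have lb : ((b % q : ℕ) : ℝ) + 1 ≤ q := by exact_mod_cast Nat.mod_lt b (by omega : 0 < q)
    have la : (0 : ℝ) ≤ (a % q : ℕ) := by positivity
    have h6 : (a : ℝ) ≤ b := by exact_mod_cast h1
    have h7 := slope (α := (es q w)⁻¹) (q := q) (Q := q * (((b / q : ℕ) : ℝ) - (a / q : ℕ) + 1))
      (x := (b : ℝ) - a + 1) ((one_le_inv₀ (es_pos hq hw)).2 (es_le hq hw)) (by linarith)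
      (by nlinarith) (by linarith) (by linarith)
    rw [Real.mul_rpow (by linarith) (by linarith), q_es hq hw] at h7
    have h8 := mul_le_mul_of_nonneg_left h7 (del_pos hq hw).le
    have h9 : del q w * ((q * w - 1) / (q - 1)) = 1 := by
      rw [← mul_div_assoc, del_mul hq hw, div_self (by linarith)]
    rw [← mul_assoc, h9] at h8
    have h10 := mul_le_mul_of_nonneg_left h4 (by linarith : (0 : ℝ) ≤ q * w)
    have h11 := del_mul hq hw
    rw [lK_succ, lK_succ]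
    push_cast
    linarith

theorem lam_cvx {a b : ℕ} (h : a ≤ b) :
    del q w * ((b : ℝ) - a + 1) ^ (es q w)⁻¹ ≤ lam q w b - lam q w a + del q w := by
  rw [lam_eq hq (lt_pw hq le_rfl : b < q ^ b), lam_eq hq (lt_pw hq h)]
  exact cvx hq hw b a b h (lt_pw hq le_rfl)

theorem lam_mono : StrictMono (lam q w) := by
  intro a b h
  have h1 := lam_cvx hq hw h.le
  have h2 : (a : ℝ) < b := by exact_mod_cast h
  have h3 : 1 < ((b : ℝ) - a + 1) ^ (es q w)⁻¹ :=
    Real.one_lt_rpow (by linarith) (inv_pos.2 (es_pos hq hw))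
  have h4 := mul_lt_mul_of_pos_left h3 (del_pos hq hw)
  exact_mod_cast (by linarith : (lam q w a : ℝ) < lam q w b)

theorem lam_le (K : ℕ) : ∀ n, (lK q w K n : ℝ) ≤ del q w * ((q * w) ^ K - 1) := by
  induction K with
  | zero => simp [lK]
  | succ K ih =>
    intro n
    have lb : ((n % q : ℕ) : ℝ) + 1 ≤ q := by exact_mod_cast Nat.mod_lt n (by omega : 0 < q)
    have h10 := mul_le_mul_of_nonneg_left (ih (n / q)) (by positivity : (0 : ℝ) ≤ q * w)
    have h11 := del_mul hq hw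
    rw [lK_succ, pow_succ]
    push_cast
    linarith

theorem win (x : ℝ) {h : ℝ} (hh : 0 < h) : ∃ a b : ℕ, a ≤ b ∧
    {n | (lam q w n : ℝ) ∈ Set.Ioo (x - h) (x + h)} = Set.Ico a b := by
  have hm := lam_mono hq hw
  have hm' : ∀ a b, a ≤ b → (lam q w a : ℝ) ≤ lam q w b := fun a b h => by
    exact_mod_cast hm.monotone h
  obtain ⟨n0, hn0⟩ := exists_nat_ge (x + h)
  have h0 : (n0 : ℝ) ≤ lam q w n0 := by exact_mod_cast hm.le_apply
  have e1 : ∃ n, x - h < lam q w n := ⟨n0, by linarith⟩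
  have e2 : ∃ n, x + h ≤ lam q w n := ⟨n0, by linarith⟩
  refine ⟨Nat.find e1, Nat.find e2, Nat.find_min' _ (by linarith [Nat.find_spec e2]), ?_⟩
  ext n
  simp only [Set.mem_setOf_eq, Set.mem_Ioo, Set.mem_Ico]
  refine and_congr ⟨fun h => Nat.find_min' _ h, fun h => (Nat.find_spec e1).trans_le (hm' _ _ h)⟩
    ⟨fun h1 => ?_, fun h1 => not_le.1 (Nat.find_min e2 h1)⟩
  by_contra! h2
  linarith [Nat.find_spec e2, hm' _ _ h2]

end

noncomputable def cc (q w : ℕ) (S : Set ℕ) (x h : ℝ) : ℝ :=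
  (S ∩ {n | (lam q w n : ℝ) ∈ Set.Ioo (x - h) (x + h)}).ncard

theorem up_all (hq : 2 ≤ q) (hw : 2 ≤ w) (S : Set ℕ) :
    Up (es q w) (cc q w S) ((2 / del q w) ^ es q w) := by
  intro ε hε
  have hd := del_pos hq hw
  have hs := es_pos hq hw
  filter_upwards [small hs 1 0 hε, eventually_gt_atTop 0] with h h1 h2 x
  obtain ⟨a, b, h3, h4⟩ := win hq hw x h2
  have h5 : cc q w S x h ≤ (b : ℝ) - a := by
    unfold cc
    rw [h4, ← Nat.cast_sub h3, Nat.cast_le]
    refine (Set.ncard_le_ncard Set.inter_subset_right (Set.finite_Ico _ _)).trans ?_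
    rw [← coe_Ico, Set.ncard_coe_finset, Nat.card_Ico]
  refine h5.trans ?_
  rcases h3.eq_or_lt with rfl | h6
  · rw [sub_self]; positivity
  obtain ⟨c, rfl⟩ : ∃ c, b = c + 1 := ⟨b - 1, by omega⟩
  have h7 := lam_cvx hq hw (by omega : a ≤ c)
  have ha : a ∈ Set.Ico a (c + 1) := ⟨le_rfl, h6⟩
  have hc : c ∈ Set.Ico a (c + 1) := ⟨by omega, by omega⟩
  rw [← h4] at ha hc
  have h8 : (a : ℝ) ≤ c := by exact_mod_cast (by omega : a ≤ c)
  have h9 : ((c : ℝ) - a + 1) ^ (es q w)⁻¹ ≤ 2 / del q w * h + 1 := by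
    rw [← mul_le_mul_iff_right₀ hd, mul_add, ← mul_assoc, mul_div_cancel₀ _ hd.ne']
    linarith [ha.1, hc.2]
  have h10 := Real.rpow_le_rpow (by positivity) h9 hs.le
  rw [Real.rpow_inv_rpow (by linarith) hs.ne'] at h10
  have h11 := Real.rpow_add_le_add_rpow (a := 2 / del q w * h) (b := 1) (by positivity)
    zero_le_one hs.le (es_le hq hw)
  rw [Real.one_rpow, Real.mul_rpow (by positivity) h2.le] at h11
  push_cast
  linarith

theorem lo_all (hq : 2 ≤ q) (hw : 2 ≤ w) {S : Set ℕ} {e : ℝ}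
    (hS : ∀ k, e * q ^ k ≤ cnt S (q ^ k)) :
    Lo (es q w) (cc q w S) (e * (2 / del q w) ^ es q w) := by
  intro ε hε
  have hd := del_pos hq hw
  obtain ⟨b1, b2⟩ := bas hq hw
  refine frequently_atTop.2 fun H => ?_
  obtain ⟨k, hk⟩ := pow_unbounded_of_one_lt (H / (del q w / 2)) (by linarith : (1 : ℝ) < q * w)
  rw [div_lt_iff₀ (by positivity)] at hk
  have hp : (0 : ℝ) < (q * w) ^ k * (del q w / 2) := by positivity
  refine ⟨_, hk.le, (q * w) ^ k * (del q w / 2) - del q w / 2, ?_⟩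
  have h1 : (2 / del q w) ^ es q w * (((q : ℝ) * w) ^ k * (del q w / 2)) ^ es q w = q ^ k := by
    rw [← Real.mul_rpow (by positivity) hp.le, mul_left_comm,
      show 2 / del q w * (del q w / 2) = 1 by field_simp, mul_one, ← Real.rpow_natCast,
      ← Real.rpow_mul (by positivity), mul_comm (k : ℝ), Real.rpow_mul (by positivity),
      p_es hq hw, Real.rpow_natCast]
  have h2 : cnt S (q ^ k) ≤ cc q w S ((q * w) ^ k * (del q w / 2) - del q w / 2)
      ((q * w) ^ k * (del q w / 2)) := by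
    have := cnt_Ico S (Nat.zero_le (q ^ k))
    rw [show cnt S 0 = 0 by simp [cnt], sub_zero] at this
    rw [← this, cc, Nat.cast_le]
    obtain ⟨a, b, -, h4⟩ := win hq hw ((q * w) ^ k * (del q w / 2) - del q w / 2) hp
    refine Set.ncard_le_ncard (Set.inter_subset_inter_right _ fun n hn => ?_)
      (by rw [h4]; exact (Set.finite_Ico _ _).inter_of_right _)
    have a1 := lam_le hq hw k n
    have a2 : (0 : ℝ) ≤ lK q w k n := by positivity
    rw [← lam_eq hq hn.2] at a1 a2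
    constructor <;> linarith
  have h3 := mul_pos hε (Real.rpow_pos_of_pos hp (es q w))
  rw [sub_mul, mul_assoc, h1]
  linarith [hS k]

end Pool.Agent.H.MP_5269d5_an
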