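import Pool.Agent.H.MP_5269d5_an.C

set_option autoImplicit false
open Finset Filter Topology MeasureTheory
open scoped Classical ENNReal

namespace Pool.Agent.H.MP_5269d5_an
open Pool.Agent.H.MP_47966f_an

variable {q w : ℕ}

def UU (q L : ℕ) : Set ℕ := {n | ∀ m, n % q ^ (L + 2 * m + 1) = m → n = m}

theorem UU_cnt (hq : 2 ≤ q) (L k : ℕ) : (1 - 1 / (q : ℝ) ^ L) * q ^ k ≤ cnt (UU q L) (q ^ k) := by
  have b1 : (2 : ℝ) ≤ q := by exact_mod_cast hq
  let A : ℕ → Finset ℕ := fun m => (range (q ^ k)).filter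
    fun n => n % q ^ (L + 2 * m + 1) = m ∧ q ^ (L + 2 * m + 1) ≤ n
  have h1 : ∀ m, ((A m).card : ℝ) ≤ q ^ k / q ^ L * (1 / 2 * (1 / 2) ^ m) := by
    intro m
    have hp : 0 < q ^ (L + 2 * m + 1) := by positivity
    have a : (A m).card ≤ (range (q ^ k / q ^ (L + 2 * m + 1))).card ∨ (A m) = ∅ := by
      rcases le_or_gt (L + 2 * m + 1) k with h | h
      · left
        refine card_le_card_of_injOn (· / q ^ (L + 2 * m + 1)) (fun n hn => ?_) fun n hn n' hn' e => ?_
        · exact mem_coe.2 (mem_range.2 (Nat.div_lt_div_of_lt_of_dvd (pow_dvd_pow q h)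
            (mem_range.1 (mem_filter.1 hn).1)))
        · rw [← Nat.div_add_mod n (q ^ (L + 2 * m + 1)), ← Nat.div_add_mod n' (q ^ (L + 2 * m + 1)),
            (mem_filter.1 hn).2.1, (mem_filter.1 hn').2.1]
          exact congrArg (fun t => q ^ (L + 2 * m + 1) * t + m) e
      · right
        refine filter_eq_empty_iff.2 fun n hn h2 => ?_
        have := Nat.pow_le_pow_right (by omega : 0 < q) h.le
        have := mem_range.1 hn
        omega
    rcases a with a | a
    · rw [card_range] at a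
      refine (Nat.cast_le.2 (a)).trans (Nat.cast_div_le.trans ?_)
      push_cast
      rw [← pow_succ' (1 / 2 : ℝ), one_div_pow, mul_one_div, div_div]
      refine div_le_div_of_nonneg_left (by positivity) (by positivity) ?_
      rw [add_assoc, pow_add (q : ℝ)]
      refine mul_le_mul_of_nonneg_left ((pow_le_pow_left₀ (by norm_num) b1 (m + 1)).trans
        (pow_le_pow_right₀ (by linarith) (by omega))) (by positivity)
    · rw [a]; simp only [card_empty, Nat.cast_zero]; positivity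
  have h2 : (range (q ^ k)).filter (fun n => n ∉ UU q L) ⊆ (range k).biUnion A := by
    intro n hn
    obtain ⟨h3, h4⟩ := mem_filter.1 hn
    simp only [UU, Set.mem_setOf_eq, not_forall] at h4
    obtain ⟨m, h5, h6⟩ := h4
    have h7 : q ^ (L + 2 * m + 1) ≤ n := by
      by_contra! h7
      exact h6 (by rw [← h5, Nat.mod_eq_of_lt h7])
    have h8 := (Nat.pow_lt_pow_iff_right (by omega : 1 < q)).1 (h7.trans_lt (mem_range.1 h3))
    exact mem_biUnion.2 ⟨m, mem_range.2 (by omega), mem_filter.2 ⟨h3, h5, h7⟩⟩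
  have h3 : (((range (q ^ k)).filter fun n => n ∉ UU q L).card : ℝ) ≤ q ^ k / q ^ L := by
    refine (Nat.cast_le.2 ((card_le_card h2).trans card_biUnion_le)).trans ?_
    push_cast
    refine (sum_le_sum fun m _ => h1 m).trans ?_
    rw [← mul_sum, ← mul_sum]
    exact mul_le_of_le_one_right (by positivity) (by linarith [sum_geometric_two_le k])
  have h4 := card_filter_add_card_filter_not (s := range (q ^ k)) (fun n => n ∈ UU q L)
  rw [card_range] at h4
  have h5 : (((range (q ^ k)).filter fun n => n ∈ UU q L).card : ℝ) +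
      ((range (q ^ k)).filter fun n => n ∉ UU q L).card = q ^ k := by exact_mod_cast h4
  rw [cnt, ← sum_filter, sum_const, nsmul_eq_mul, mul_one, sub_mul, one_mul, one_div_mul_eq_div]
  linarith

theorem tau_kept (hq : 2 ≤ q) {K : Set ℕ} {L : ℕ}
    (hK : ∀ n ∈ K, ∀ m ∉ K, n % q ^ (L + 2 * m + 1) ≠ m) {n : ℕ} (hn : n ∈ K) :
    tau q w Kᶜ L n = lam q w n := by
  rw [lam_eq hq (lt_pw hq (by omega) : n < q ^ (L + 2 * n + 1))]
  unfold tau tK lK
  refine sum_congr rfl fun i _ => ?_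
  rw [sh, if_neg, add_zero]
  rintro ⟨m, h1, rfl, h2⟩
  exact hK n hn m h1 h2

theorem sparse (hq : 2 ≤ q) (hw : 2 ≤ w) (R : Set ℕ) (L : ℕ) (x : ℝ) {h : ℝ} (hh : 1 ≤ h) :
    ((R ∩ {n | (tau q w R L n : ℝ) ∈ Set.Ioo (x - h) (x + h)}).ncard : ℝ) ≤
      3 + (Real.log 2)⁻¹ * Real.log h := by
  have l2 : 0 < Real.log 2 := Real.log_pos (by norm_num)
  have l3 := Real.log_nonneg hh
  obtain ⟨T, hT⟩ : ∃ T, T = R ∩ {n | (tau q w R L n : ℝ) ∈ Set.Ioo (x - h) (x + h)} := ⟨_, rfl⟩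
  rw [← hT]
  rcases T.eq_empty_or_nonempty with rfl | hne
  · simp only [Set.ncard_empty, Nat.cast_zero]; positivity
  have h1 : T ⊆ ↑(insert (sInf T) (range ⌈Real.logb 2 (2 * h)⌉₊)) := by
    intro n hn
    rw [mem_coe, mem_insert]
    refine (Nat.sInf_le hn).eq_or_lt.imp Eq.symm fun h2 => ?_
    have h3 := Nat.sInf_mem hne
    generalize sInf T = m at h2 h3
    rw [hT] at hn h3
    have a1 := tau_split (w := w) (R := R) (L := L) hq (lt_pw hq (by omega) : n < q ^ (L + 2 * n))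
    rw [if_pos ⟨hn.1, le_rfl⟩] at a1
    have a2 : tau q w R L m < (q * w) ^ (L + 2 * n) := (tK_lt hq hw _ _).trans_le
      (Nat.pow_le_pow_right (by positivity) (by omega))
    have a3 : 2 ^ n ≤ (q * w) ^ (L + 2 * n) := (Nat.pow_le_pow_left (by nlinarith) n).trans
      (Nat.pow_le_pow_right (by positivity) (by omega))
    have a4 : tau q w R L m + 2 ^ n ≤ tau q w R L n := by
      nlinarith [Nat.mul_le_mul_right ((q * w) ^ (L + 2 * n)) hq]
    have a5 : (tau q w R L m : ℝ) + 2 ^ n ≤ tau q w R L n := by exact_mod_cast a4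
    rw [mem_range, Nat.lt_ceil, Real.lt_logb_iff_rpow_lt (by norm_num) (by linarith),
      Real.rpow_natCast]
    linarith [hn.2.2, h3.2.1]
  have h2 := Set.ncard_le_ncard h1 (finite_toSet _)
  rw [Set.ncard_coe_finset] at h2
  have h3 := h2.trans (card_insert_le _ _)
  rw [card_range] at h3
  have h4 : Real.logb 2 (2 * h) = 1 + (Real.log 2)⁻¹ * Real.log h := by
    rw [Real.logb, Real.log_mul (by norm_num) (by linarith)]; field_simp
  have h5 := Nat.ceil_lt_add_one (a := Real.logb 2 (2 * h)) (by rw [h4]; positivity)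
  have h6 : (T.ncard : ℝ) ≤ ⌈Real.logb 2 (2 * h)⌉₊ + 1 := by exact_mod_cast h3
  linarith

theorem dens (hq : 2 ≤ q) (hw : 2 ≤ w) {K : Set ℕ} {L : ℕ}
    (hK : ∀ n ∈ K, ∀ m ∉ K, n % q ^ (L + 2 * m + 1) ≠ m) {d : ℝ} (hd : 0 ≤ d)
    (hU : Up (es q w) (cc q w K) d) (hL : Lo (es q w) (cc q w K) d) :
    limsup (fun h : ℝ => ⨆ x : ℝ, (((((↑) '' (Set.range fun n => (tau q w Kᶜ L n : ℤ)) : Set ℝ))
      ∩ Set.Ioo (x - h) (x + h)).encard : ℝ≥0∞) / ENNReal.ofReal (h ^ es q w)) atTop =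
      ENNReal.ofReal d := by
  have hi : Function.Injective fun n => (tau q w Kᶜ L n : ℝ) :=
    fun a b h => tau_inj hq hw (Nat.cast_injective h)
  have e : ∀ x h : ℝ, ((↑) '' (Set.range fun n => (tau q w Kᶜ L n : ℤ)) : Set ℝ) ∩
      Set.Ioo (x - h) (x + h) = (fun n => (tau q w Kᶜ L n : ℝ)) ''
        {n | (tau q w Kᶜ L n : ℝ) ∈ Set.Ioo (x - h) (x + h)} := by
    intro x h
    ext y
    constructor
    · rintro ⟨⟨_, ⟨n, rfl⟩, rfl⟩, h2⟩
      exact ⟨n, by simpa using h2, by simp⟩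
    · rintro ⟨n, h2, rfl⟩
      exact ⟨⟨_, ⟨n, rfl⟩, by simp⟩, h2⟩
  have fin : ∀ x h : ℝ, {n | (tau q w Kᶜ L n : ℝ) ∈ Set.Ioo (x - h) (x + h)}.Finite := by
    intro x h
    refine ((Set.finite_Iio ⌈x + h⌉₊).preimage (tau_inj (R := Kᶜ) (L := L) hq hw).injOn).subset
      fun n hn => ?_
    exact Nat.lt_ceil.2 hn.2
  have := transfer (s := es q w) (C := cc q w K) (C' := fun x h =>
      ((((↑) '' (Set.range fun n => (tau q w Kᶜ L n : ℤ)) : Set ℝ) ∩
      Set.Ioo (x - h) (x + h)).ncard : ℝ)) (θ := 1) (e := d) zero_le_one le_rfl fun ε hε => by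
    filter_upwards [small (es_pos hq hw) 3 (Real.log 2)⁻¹ hε, eventually_ge_atTop 1] with h h1 h2 x
    rw [e, Set.ncard_image_of_injective _ hi, ← Set.ncard_inter_add_ncard_diff_eq_ncard _ K (fin x h),
      Set.diff_eq, Set.inter_comm _ K, Set.inter_comm _ Kᶜ]
    have : K ∩ {n | (tau q w Kᶜ L n : ℝ) ∈ Set.Ioo (x - h) (x + h)} =
        K ∩ {n | (lam q w n : ℝ) ∈ Set.Ioo (x - h) (x + h)} := by
      ext n
      refine and_congr_right fun hn => ?_
      simp only [Set.mem_setOf_eq, tau_kept hq hK hn]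
    rw [this, cc, Nat.cast_add, one_mul, add_sub_cancel_left, Nat.abs_cast]
    exact (sparse hq hw _ L x h2).trans h1
  rw [one_mul] at this
  exact lsup (fun x h => by rw [e]; exact (fin x h).image _) hd (this.1 hU) (this.2 hL)

theorem choose_K (hq : 2 ≤ q) (hw : 2 ≤ w) {d : ℝ} (hd : 0 ≤ d) (hM : d ≤ (2 / del q w) ^ es q w) :
    ∃ (K : Set ℕ) (L : ℕ), (∀ n ∈ K, ∀ m ∉ K, n % q ^ (L + 2 * m + 1) ≠ m) ∧
      Up (es q w) (cc q w K) d ∧ Lo (es q w) (cc q w K) d := by
  have hdel := del_pos hq hw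
  obtain ⟨b1, b2⟩ := bas hq hw
  rcases hM.eq_or_lt with rfl | hM
  · refine ⟨Set.univ, 0, by simp, up_all hq hw _, ?_⟩
    simpa using lo_all hq hw (S := Set.univ) (e := 1) fun k => by simp [cnt]
  obtain ⟨M, hM'⟩ : ∃ M, M = (2 / del q w) ^ es q w := ⟨_, rfl⟩
  obtain ⟨L, hL⟩ := pow_unbounded_of_one_lt (M / (M - d)) (by linarith : (1 : ℝ) < q)
  have h1 := lo_all hq hw (UU_cnt hq L)
  obtain ⟨D, h2, h3, h4⟩ := ex_D h1 (up_all hq hw _)
  rw [← hM'] at hM h2
  have h5 : d < D := by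
    refine lt_of_lt_of_le ?_ h2
    rw [div_lt_iff₀ (by linarith), mul_comm, ← div_lt_iff₀ (by positivity)] at hL
    rw [sub_mul, one_mul, one_div_mul_eq_div]
    linarith
  have h6 : 0 < D := hd.trans_lt h5
  have t0 : 0 ≤ d / D := by positivity
  have t1 : d / D ≤ 1 := (div_le_one h6).2 h5.le
  obtain ⟨K, h7, h8⟩ := thin (UU q L) t0 t1
  have := transfer (s := es q w) (C := cc q w (UU q L)) (C' := cc q w K) (e := D) t0 t1
    fun ε hε => by
    filter_upwards [small (es_pos hq hw) 1 0 hε, eventually_gt_atTop 0] with h h1 h2 x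
    obtain ⟨a, b, h3, h4⟩ := win hq hw x h2
    rw [cc, cc, h4, cnt_Ico _ h3, cnt_Ico _ h3, h8, h8, abs_le]
    have := Int.floor_le (d / D * cnt (UU q L) a)
    have := Int.floor_le (d / D * cnt (UU q L) b)
    have := Int.lt_floor_add_one (d / D * cnt (UU q L) a)
    have := Int.lt_floor_add_one (d / D * cnt (UU q L) b)
    constructor <;> linarith
  rw [div_mul_cancel₀ _ h6.ne'] at this
  exact ⟨K, L, fun n hn m hm e => hm (h7 hn m e ▸ hn), this.1 h3, this.2 h4⟩

theorem selfsim (hq : 2 ≤ q) (hw : 2 ≤ w) (μ : Measure ℝ) [IsProbabilityMeasure μ]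
    (hμ : μ = (q : ℝ≥0∞)⁻¹ • ∑ j ∈ range q,
      μ.map fun x : ℝ => ((q : ℝ) * w)⁻¹ * (x + w * j)) (ξ : ℝ) :
    Tendsto (fun n => Ph (NN q w) 0 n ξ) atTop (𝓝 (Fo μ ξ)) := by
  obtain ⟨b1, b2⟩ := bas hq hw
  have hw0 : (0 : ℝ) < w := by positivity
  have h1 : ∀ (i : ℕ), Fo μ (ξ / (q * w) ^ i) =
      ph (NN q w) (2 * i + 0) ξ * Fo μ (ξ / (q * w) ^ (i + 1)) := by
    intro i
    have hb : ∀ (ν : Measure ℝ) [IsFiniteMeasure ν] (t : ℝ),
        Integrable (fun x : ℝ => Complex.exp (t * x * Complex.I)) ν := fun ν _ t =>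
      Integrable.of_bound (Continuous.aestronglyMeasurable (by fun_prop)) 1 (.of_forall fun x => by
        rw [← Complex.ofReal_mul]; exact (Complex.norm_exp_ofReal_mul_I _).le)
    unfold Fo ph
    rw [add_zero, P_od, show NN q w (2 * i) = q by simp [NN], charFun_apply_real,
      charFun_apply_real]
    conv_lhs => rw [hμ]
    rw [integral_smul_measure, integral_finsetSum_measure fun _ _ => hb _ _,
      mul_assoc (q : ℂ)⁻¹, sum_mul]
    simp only [ENNReal.toReal_inv, ENNReal.toReal_natCast, Complex.real_smul]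
    congr 1
    · simp
    refine sum_congr rfl fun j _ => ?_
    rw [integral_map (by fun_prop) (by fun_prop), ← integral_const_mul]
    congr 1
    ext x
    unfold E
    rw [← Complex.exp_add, ← add_mul]
    congr 2
    norm_cast
    push_cast
    field_simp
    ring
  have h2 : ∀ n, Fo μ ξ = Ph (NN q w) 0 n ξ * Fo μ (ξ / (q * w) ^ n) := by
    intro n
    induction n with
    | zero => simp [Ph]
    | succ n ih => rw [ih, h1 n, Ph, Ph, prod_range_succ, mul_assoc]
  have h3 : Tendsto (fun n : ℕ => Fo μ (ξ / (q * w) ^ n)) atTop (𝓝 1) := by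
    have a : Tendsto (fun n : ℕ => 2 * Real.pi * (ξ / ((q : ℝ) * w) ^ n)) atTop (𝓝 0) := by
      simpa using ((tendsto_pow_atTop_atTop_of_one_lt (by linarith : (1 : ℝ) < q * w)).const_div_atTop
        ξ).const_mul (2 * Real.pi)
    simpa [Fo, Function.comp_def] using ((continuous_charFun (μ := μ)).tendsto 0).comp a
  have h4 := (tendsto_const_nhds (x := Fo μ ξ)).div h3 one_ne_zero
  rw [div_one] at h4
  refine h4.congr' ?_
  filter_upwards [h3.eventually_ne one_ne_zero] with n hn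
  rw [Pi.div_apply, div_eq_iff hn]
  exact h2 n

end Pool.Agent.H.MP_5269d5_an
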